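import Pool.Agent.Lib.MP_b4205f_al.CH.Defs
import Mathlib.MeasureTheory.Measure.Lebesgue.EqHaar

/-!
# FRONT: the region is bounded and its frontier is a null set
-/

namespace Pool.Agent.Lib.MP_b4205f_al.H80

open MeasureTheory Pool.Agent.Lib.MP_b4205f_al.CH

/-- the frontier is a null set -/
def NF (S : Set (ℝ × ℝ)) : Prop := volume (frontier S) = 0

theorem NF.union {S T : Set (ℝ × ℝ)} (hS : NF S) (hT : NF T) : NF (S ∪ T) := by
  refine measure_mono_null (frontier_union_subset S T) (measure_union_null ?_ ?_)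
  · exact measure_mono_null Set.inter_subset_left hS
  · exact measure_mono_null Set.inter_subset_right hT

theorem NF.inter {S T : Set (ℝ × ℝ)} (hS : NF S) (hT : NF T) : NF (S ∩ T) := by
  refine measure_mono_null (frontier_inter_subset S T) (measure_union_null ?_ ?_)
  · exact measure_mono_null Set.inter_subset_left hS
  · exact measure_mono_null Set.inter_subset_right hT

theorem NF.empty : NF (∅ : Set (ℝ × ℝ)) := by
  unfold NF
  rw [frontier_empty, measure_empty]

theorem NF.biUnion {ι : Type} (s : Finset ι) (f : ι → Set (ℝ × ℝ)) (h : ∀ i ∈ s, NF (f i)) :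
    NF (⋃ i ∈ s, f i) := by
  classical
  induction s using Finset.induction_on with
  | empty => simpa using NF.empty
  | insert a s _ ih =>
    rw [Finset.set_biUnion_insert]
    exact (h a (Finset.mem_insert_self _ _)).union
      (ih (fun i hi => h i (Finset.mem_insert_of_mem hi)))

theorem null_graph (a : ℝ) : volume {q : ℝ × ℝ | q.2 = a * q.1} = 0 := by
  rw [Measure.volume_eq_prod, Measure.measure_prod_null]
  · filter_upwards with x
    have : (Prod.mk x ⁻¹' {q : ℝ × ℝ | q.2 = a * q.1}) = {a * x} := by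
      ext y; simp
    rw [this]
    simp
  · exact measurableSet_eq_fun measurable_snd (measurable_fst.const_mul _)

theorem null_fst (c : ℝ) : volume {q : ℝ × ℝ | q.1 = c} = 0 := by
  have : {q : ℝ × ℝ | q.1 = c} = {c} ×ˢ Set.univ := by
    ext q; simp
  rw [this, Measure.volume_eq_prod, Measure.prod_prod]
  simp

theorem null_snd (c : ℝ) : volume {q : ℝ × ℝ | q.2 = c} = 0 := by
  have : {q : ℝ × ℝ | q.2 = c} = Set.univ ×ˢ {c} := by
    ext q; simp
  rw [this, Measure.volume_eq_prod, Measure.prod_prod]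
  simp

theorem null_abs_fst (c : ℝ) : volume {q : ℝ × ℝ | |q.1| = c} = 0 := by
  refine measure_mono_null (t := {q : ℝ × ℝ | q.1 = c} ∪ {q : ℝ × ℝ | q.1 = -c}) ?_
    (measure_union_null (null_fst c) (null_fst (-c)))
  intro q hq
  rcases abs_choice q.1 with h | h
  · left
    show q.1 = c
    rw [← h]; exact hq
  · right
    show q.1 = -c
    have : |q.1| = c := hq
    rw [← this, h, neg_neg]

theorem null_abs_snd (c : ℝ) : volume {q : ℝ × ℝ | |q.2| = c} = 0 := by
  refine measure_mono_null (t := {q : ℝ × ℝ | q.2 = c} ∪ {q : ℝ × ℝ | q.2 = -c}) ?_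
    (measure_union_null (null_snd c) (null_snd (-c)))
  intro q hq
  rcases abs_choice q.2 with h | h
  · left
    show q.2 = c
    rw [← h]; exact hq
  · right
    show q.2 = -c
    have : |q.2| = c := hq
    rw [← this, h, neg_neg]

theorem null_abs_abs (c : ℝ) (hc : 0 ≤ c) : volume {q : ℝ × ℝ | |q.2| = c * |q.1|} = 0 := by
  refine measure_mono_null (t := {q : ℝ × ℝ | q.2 = c * q.1} ∪ {q : ℝ × ℝ | q.2 = (-c) * q.1}) ?_
    (measure_union_null (null_graph c) (null_graph (-c)))
  intro q hq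
  have h : |q.2| = |c * q.1| := by
    rw [abs_mul, abs_of_nonneg hc]; exact hq
  rcases abs_eq_abs.mp h with h | h
  · exact Or.inl h
  · right
    show q.2 = -c * q.1
    rw [h]; ring

theorem c1 : Continuous (fun q : ℝ × ℝ => |q.1|) := continuous_fst.abs
theorem c2 : Continuous (fun q : ℝ × ℝ => |q.2|) := continuous_snd.abs

theorem nf_lt_fst (c : ℝ) : NF {q : ℝ × ℝ | c < |q.1|} :=
  measure_mono_null ((frontier_lt_subset_eq continuous_const c1).trans
    (fun _ (h : c = |_|) => h.symm)) (null_abs_fst c)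

theorem nf_le_fst (c : ℝ) : NF {q : ℝ × ℝ | |q.1| ≤ c} :=
  measure_mono_null (frontier_le_subset_eq c1 continuous_const) (null_abs_fst c)

theorem nf_lt_snd (c : ℝ) : NF {q : ℝ × ℝ | c < |q.2|} :=
  measure_mono_null ((frontier_lt_subset_eq continuous_const c2).trans
    (fun _ (h : c = |_|) => h.symm)) (null_abs_snd c)

theorem nf_le_snd (c : ℝ) : NF {q : ℝ × ℝ | |q.2| ≤ c} :=
  measure_mono_null (frontier_le_subset_eq c2 continuous_const) (null_abs_snd c)

theorem nf_lt : NF {q : ℝ × ℝ | |q.2| < |q.1|} := by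
  refine measure_mono_null (frontier_lt_subset_eq c2 c1) ?_
  have := null_abs_abs 1 zero_le_one
  simpa using this

theorem nf_le (c : ℝ) (hc : 0 ≤ c) : NF {q : ℝ × ℝ | |q.2| ≤ c * |q.1|} :=
  measure_mono_null (frontier_le_subset_eq c2 (continuous_const.mul c1)) (null_abs_abs c hc)

/-- the step of a chain as a linear isomorphism -/
noncomputable def stp (p n : ℕ) (hn : 1 ≤ n) (m : ℤ) : (ℝ × ℝ) ≃ₗ[ℝ] (ℝ × ℝ) where
  toFun q := (q.2, nxt p n m q.1 q.2)
  invFun q := ((q.2 + (p : ℝ) * (m : ℝ) * q.1) / (n : ℝ) ^ 2, q.1)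
  map_add' q r := by
    refine Prod.ext rfl ?_
    simp only [nxt, Prod.fst_add, Prod.snd_add]
    ring
  map_smul' c q := by
    refine Prod.ext rfl ?_
    simp only [nxt, Prod.smul_fst, Prod.smul_snd, smul_eq_mul, RingHom.id_apply]
    ring
  left_inv q := by
    have : (n : ℝ) ≠ 0 := by positivity
    refine Prod.ext ?_ rfl
    simp only [nxt]
    field_simp
    ring
  right_inv q := by
    have : (n : ℝ) ≠ 0 := by positivity
    refine Prod.ext rfl ?_
    simp only [nxt]
    field_simp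
    ring

theorem NF.stp {S : Set (ℝ × ℝ)} (hS : NF S) (p n : ℕ) (hn : 1 ≤ n) (m : ℤ) :
    NF ((fun q : ℝ × ℝ => (q.2, nxt p n m q.1 q.2)) ⁻¹' S) := by
  set e := (H80.stp p n hn m).toContinuousLinearEquiv with he
  have h1 : (fun q : ℝ × ℝ => (q.2, nxt p n m q.1 q.2)) = e.toHomeomorph := rfl
  unfold NF
  rw [h1, ← Homeomorph.preimage_frontier]
  have h2 : (e.toHomeomorph ⁻¹' frontier S) = e ⁻¹' frontier S := rfl
  rw [h2, Measure.addHaar_preimage_continuousLinearEquiv, hS, mul_zero]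

theorem NF.ex (p n K : ℕ) (hn : 1 ≤ n) (h : NF {q : ℝ × ℝ | HH p n K q.1 q.2}) :
    NF {q : ℝ × ℝ | ∃ m ∈ Finset.Icc (-(BB n : ℤ)) (BB n : ℤ),
      HH p n K q.2 (nxt p n m q.1 q.2)} := by
  have e : {q : ℝ × ℝ | ∃ m ∈ Finset.Icc (-(BB n : ℤ)) (BB n : ℤ),
      HH p n K q.2 (nxt p n m q.1 q.2)} =
      ⋃ m ∈ Finset.Icc (-(BB n : ℤ)) (BB n : ℤ),
        (fun q : ℝ × ℝ => (q.2, nxt p n m q.1 q.2)) ⁻¹' {q : ℝ × ℝ | HH p n K q.1 q.2} := by
    ext q
    simp only [Set.mem_setOf_eq, Set.mem_iUnion, Set.mem_preimage, exists_prop]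
  rw [e]
  exact NF.biUnion _ _ (fun m _ => h.stp p n hn m)

theorem NF.HH (p n K : ℕ) (hn : 1 ≤ n) : NF {q : ℝ × ℝ | CH.HH p n K q.1 q.2} := by
  have b0 : NF {q : ℝ × ℝ | 1 < |q.1| ∧ 0 < |q.2| ∧ |q.2| ≤ 1} :=
    (nf_lt_fst 1).inter ((nf_lt_snd 0).inter (nf_le_snd 1))
  induction K with
  | zero => exact b0
  | succ K ih =>
    exact b0.union ((nf_lt_snd 1).inter (nf_lt.inter (NF.ex p n K hn ih)))

theorem NF.RR (p n K : ℕ) (hn : 1 ≤ n) : NF {q : ℝ × ℝ | CH.RR p n K q.1 q.2} :=
  (nf_lt_fst 0).inter ((nf_le_fst 1).inter ((nf_lt_snd 1).inter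
    ((nf_le ((n : ℝ) ^ 2) (by positivity)).inter (NF.ex p n K hn (NF.HH p n K hn)))))

/-- module FRONT -/
theorem front (h : MEAS_S) : FRONT_S := by
  intro p n K hn
  refine ⟨?_, ?_, ?_⟩
  · have hb : Bornology.IsBounded (Metric.closedBall (0 : ℝ × ℝ) ((n : ℝ) ^ 2)) :=
      Metric.isBounded_closedBall
    refine hb.subset ?_
    intro q hq
    have hn1 : (1 : ℝ) ≤ (n : ℝ) ^ 2 := by
      have : (1 : ℝ) ≤ n := by exact_mod_cast hn
      nlinarith
    rw [mem_closedBall_zero_iff, Prod.norm_def, Real.norm_eq_abs, Real.norm_eq_abs]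
    rcases hq with ⟨_, h1, _, h2⟩ | ⟨_, h1, _, h2, _⟩
    · exact max_le (h1.trans hn1) (h2.trans hn1)
    · refine max_le (h1.trans hn1) (h2.trans ?_)
      nlinarith
  · have a1 : Measurable (fun q : ℝ × ℝ => |q.1|) := measurable_fst.abs
    have a2 : Measurable (fun q : ℝ × ℝ => |q.2|) := measurable_snd.abs
    exact ((measurableSet_lt measurable_const a1).inter
      ((measurableSet_le a1 measurable_const).inter
        ((measurableSet_lt measurable_const a2).inter
          (measurableSet_le a2 measurable_const)))).union (h p n K).2.1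
  · exact NF.union ((nf_lt_fst 0).inter ((nf_le_fst 1).inter ((nf_lt_snd 0).inter (nf_le_snd 1))))
      (NF.RR p n K hn)

end Pool.Agent.Lib.MP_b4205f_al.H80
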