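import Pool.Agent.Lib.MP_b4205f_al.CH.Defs

/-!
# MEAS: the sets of real chains are measurable and increase with the length
-/

namespace Pool.Agent.Lib.MP_b4205f_al.H80

open MeasureTheory Pool.Agent.Lib.MP_b4205f_al.CH

theorem HH_lt (p n K : ℕ) (w z : ℝ) (h : HH p n K w z) : 1 < |w| ∧ 0 < |z| ∧ |z| < |w| := by
  cases K with
  | zero =>
    obtain ⟨h1, h2, h3⟩ := h
    exact ⟨h1, h2, lt_of_le_of_lt h3 h1⟩
  | succ K =>
    rcases h with ⟨h1, h2, h3⟩ | ⟨h1, h2, _⟩
    · exact ⟨h1, h2, lt_of_le_of_lt h3 h1⟩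
    · exact ⟨lt_trans h1 h2, lt_trans zero_lt_one h1, h2⟩

theorem HH_mono (p n K : ℕ) : ∀ w z : ℝ, HH p n K w z → HH p n (K + 1) w z := by
  induction K with
  | zero =>
    intro w z h
    exact Or.inl h
  | succ K ih =>
    intro w z h
    rcases h with h | ⟨h1, h2, m, hm, h3⟩
    · exact Or.inl h
    · exact Or.inr ⟨h1, h2, m, hm, ih _ _ h3⟩

theorem measurable_stp (p n : ℕ) (m : ℤ) :
    Measurable (fun q : ℝ × ℝ => (q.2, nxt p n m q.1 q.2)) := by
  refine measurable_snd.prodMk ?_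
  unfold nxt
  exact (measurable_fst.const_mul _).sub (measurable_snd.const_mul _)

theorem measurableSet_ex (p n K : ℕ) (h : MeasurableSet {q : ℝ × ℝ | HH p n K q.1 q.2}) :
    MeasurableSet {q : ℝ × ℝ | ∃ m ∈ Finset.Icc (-(BB n : ℤ)) (BB n : ℤ),
      HH p n K q.2 (nxt p n m q.1 q.2)} := by
  have e : {q : ℝ × ℝ | ∃ m ∈ Finset.Icc (-(BB n : ℤ)) (BB n : ℤ),
      HH p n K q.2 (nxt p n m q.1 q.2)} =
      ⋃ m ∈ Finset.Icc (-(BB n : ℤ)) (BB n : ℤ),
        (fun q : ℝ × ℝ => (q.2, nxt p n m q.1 q.2)) ⁻¹' {q : ℝ × ℝ | HH p n K q.1 q.2} := by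
    ext q
    simp only [Set.mem_setOf_eq, Set.mem_iUnion, Set.mem_preimage, exists_prop]
  rw [e]
  exact Finset.measurableSet_biUnion _ (fun m _ => measurable_stp p n m h)

theorem measurableSet_HH (p n K : ℕ) : MeasurableSet {q : ℝ × ℝ | HH p n K q.1 q.2} := by
  have a1 : Measurable (fun q : ℝ × ℝ => |q.1|) := measurable_fst.abs
  have a2 : Measurable (fun q : ℝ × ℝ => |q.2|) := measurable_snd.abs
  have b0 : MeasurableSet {q : ℝ × ℝ | 1 < |q.1| ∧ 0 < |q.2| ∧ |q.2| ≤ 1} :=
    (measurableSet_lt measurable_const a1).inter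
      ((measurableSet_lt measurable_const a2).inter (measurableSet_le a2 measurable_const))
  induction K with
  | zero => exact b0
  | succ K ih =>
    exact b0.union ((measurableSet_lt measurable_const a2).inter
      ((measurableSet_lt a2 a1).inter (measurableSet_ex p n K ih)))

theorem measurableSet_RR (p n K : ℕ) : MeasurableSet {q : ℝ × ℝ | RR p n K q.1 q.2} := by
  have a1 : Measurable (fun q : ℝ × ℝ => |q.1|) := measurable_fst.abs
  have a2 : Measurable (fun q : ℝ × ℝ => |q.2|) := measurable_snd.abs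
  exact (measurableSet_lt measurable_const a1).inter
    ((measurableSet_le a1 measurable_const).inter
      ((measurableSet_lt measurable_const a2).inter
        ((measurableSet_le a2 (a1.const_mul _)).inter
          (measurableSet_ex p n K (measurableSet_HH p n K)))))

/-- module MEAS -/
theorem meas : MEAS_S := fun p n K =>
  ⟨measurableSet_HH p n K, measurableSet_RR p n K, HH_mono p n K, HH_lt p n K⟩

end Pool.Agent.Lib.MP_b4205f_al.H80
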